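import Mathlib
import Pool.Agent.H770R2.Spec.Props
import Pool.Agent.H579R2.Kad5.GNS
import Pool.Agent.H278R2.Kad7.DSum

/-! REP (helper51): every C*-algebra has a faithful representation. -/

open scoped ComplexOrder InnerProductSpace
open Filter

noncomputable section

namespace H770R2.Spec

namespace RepAux

theorem norm_add {B : Type} [CStarAlgebra B] [PartialOrder B] [StarOrderedRing B] [Nontrivial B]
    {p : B} (hp : 0 ≤ p) : ‖p‖ + 1 ≤ ‖1 + p‖ := by
  have h1 : ‖p‖ ∈ spectrum ℝ p := CStarAlgebra.norm_mem_spectrum_of_nonneg hp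
  have h2 : ‖p‖ + 1 ∈ spectrum ℝ (algebraMap ℝ B 1 + p) := spectrum.add_mem_add_iff.2 h1
  rw [map_one] at h2
  have h3 := spectrum.norm_le_norm_of_mem h2
  rwa [Real.norm_of_nonneg (by positivity)] at h3

theorem im_zero {B : Type} [CStarAlgebra B] {f : B → ℂ}
    (hadd : ∀ a b, f (a + b) = f a + f b) (hsmul : ∀ (c : ℂ) a, f (c • a) = c * f a)
    (hle : ∀ a, ‖f a‖ ≤ ‖a‖) (h1 : f 1 = 1) {h : B} (hh : star h = h) : (f h).im = 0 := by
  by_contra hne
  set s := (f h).im with hs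
  set t : ℝ := (‖h‖ ^ 2 + 1) / s with ht
  have h2 : f (h + ((t : ℂ) * Complex.I) • (1 : B)) = f h + (t : ℂ) * Complex.I := by
    rw [hadd, hsmul, h1, mul_one]
  have h3 : ‖h + ((t : ℂ) * Complex.I) • (1 : B)‖ ^ 2 ≤ ‖h‖ ^ 2 + t ^ 2 * ‖(1 : B)‖ := by
    rw [sq, ← CStarRing.norm_star_mul_self]
    have h4 : star (h + ((t : ℂ) * Complex.I) • (1 : B)) * (h + ((t : ℂ) * Complex.I) • (1 : B)) =
        star h * h + ((t ^ 2 : ℝ) : ℂ) • (1 : B) := by
      rw [star_add, star_smul, star_one, hh, add_mul, mul_add, mul_add, smul_mul_smul_comm, one_mul,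
        mul_smul_comm, mul_one, smul_mul_assoc, one_mul]
      have e1 : star ((t : ℂ) * Complex.I) = -((t : ℂ) * Complex.I) := by
        simp
      have e2 : star ((t : ℂ) * Complex.I) * ((t : ℂ) * Complex.I) = ((t ^ 2 : ℝ) : ℂ) := by
        rw [e1]
        have := Complex.I_mul_I
        push_cast
        linear_combination (-(t : ℂ) ^ 2) * this
      rw [e2, e1, neg_smul]
      abel
    rw [h4]
    refine (norm_add_le _ _).trans ?_
    rw [CStarRing.norm_star_mul_self, norm_smul, Complex.norm_real, Real.norm_of_nonneg (sq_nonneg _)]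
    nlinarith
  have h1n : ‖(1 : B)‖ ≤ 1 := by
    have h5 := CStarRing.norm_star_mul_self (x := (1 : B))
    rw [star_one, mul_one] at h5
    by_contra h6
    push Not at h6
    nlinarith
  have h5 := hle (h + ((t : ℂ) * Complex.I) • (1 : B))
  rw [h2] at h5
  have h6 : ‖f h + (t : ℂ) * Complex.I‖ ^ 2 = (f h).re ^ 2 + (s + t) ^ 2 := by
    rw [← Complex.normSq_eq_norm_sq, Complex.normSq_apply]
    simp
    ring
  have h7 : ‖f h + (t : ℂ) * Complex.I‖ ^ 2 ≤ ‖h + ((t : ℂ) * Complex.I) • (1 : B)‖ ^ 2 :=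
    pow_le_pow_left₀ (norm_nonneg _) h5 2
  rw [h6] at h7
  have h8 : s * t = ‖h‖ ^ 2 + 1 := by
    rw [ht]; field_simp
  nlinarith [sq_nonneg (f h).re, sq_nonneg s, sq_nonneg t, sq_nonneg ‖h‖]

theorem state {B : Type} [CStarAlgebra B] [Nontrivial B] (b : B) :
    ∃ φ : B →ₗ[ℂ] ℂ, φ 1 = 1 ∧ (∀ a, 0 ≤ φ (star a * a)) ∧
      φ (star b * b) = ((‖b‖ ^ 2 : ℝ) : ℂ) := by
  let := CStarAlgebra.spectralOrder B
  have := CStarAlgebra.spectralOrderedRing B
  set p := star b * b with hp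
  have hp0 : 0 ≤ p := star_mul_self_nonneg b
  have hn := norm_add hp0
  have hne : (1 + p : B) ≠ 0 := by
    intro h0
    rw [h0, norm_zero] at hn
    have := norm_nonneg p
    linarith
  obtain ⟨f, hf1, hf2⟩ := exists_dual_vector ℂ (1 + p) (norm_ne_zero_iff.2 hne)
  have hle : ∀ a, ‖f a‖ ≤ ‖a‖ := by
    intro a
    have := f.le_opNorm a
    rwa [hf1, one_mul] at this
  have hone : ‖f 1‖ ≤ 1 := by
    have := hle 1
    rwa [norm_one] at this
  have hfp := hle p
  have hsum : (f 1).re + (f p).re = ‖1 + p‖ := by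
    rw [← Complex.add_re, ← map_add, hf2]
    simp
  have hre1 : (f 1).re ≤ 1 := (Complex.re_le_norm _).trans hone
  have hre2 : (f p).re ≤ ‖p‖ := (Complex.re_le_norm _).trans hfp
  have e1 : (f 1).re = 1 := by linarith
  have e2 : (f p).re = ‖p‖ := by linarith
  have key : ∀ (z : ℂ) (r : ℝ), z.re = r → ‖z‖ ≤ r → z = (r : ℂ) := by
    intro z r h1 h2
    have h3 : ‖z‖ ^ 2 = z.re ^ 2 + z.im ^ 2 := by
      rw [← Complex.normSq_eq_norm_sq, Complex.normSq_apply]; ring
    have h4 : ‖z‖ ^ 2 ≤ r ^ 2 := pow_le_pow_left₀ (norm_nonneg _) h2 2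
    have h5 : z.im = 0 := by
      rw [h3, h1] at h4
      have : z.im ^ 2 ≤ 0 := by linarith
      exact pow_eq_zero_iff (two_ne_zero) |>.1 (le_antisymm this (sq_nonneg _))
    apply Complex.ext
    · rw [h1, Complex.ofReal_re]
    · rw [h5, Complex.ofReal_im]
  have f1 : f 1 = 1 := by
    have := key (f 1) 1 e1 hone
    rw [this]; simp
  have fp : f p = (‖p‖ : ℂ) := key _ _ e2 hfp
  refine ⟨(f : B →ₗ[ℂ] ℂ), f1, ?_, ?_⟩
  · intro a
    set q := star a * a with hq
    have hq0 : 0 ≤ q := star_mul_self_nonneg a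
    have him : (f q).im = 0 := by
      refine im_zero (f := fun x => f x) (fun a b => map_add f a b) (fun c a => ?_) hle f1 ?_
      · exact map_smul f c a
      · rw [hq]; simp
    have hre : 0 ≤ (f q).re := by
      have h1 : q ≤ algebraMap ℝ B ‖q‖ :=
        IsSelfAdjoint.le_algebraMap_norm_self (IsSelfAdjoint.star_mul_self a)
      have h2 : ‖algebraMap ℝ B ‖q‖ - q‖ ≤ ‖q‖ := by
        have h3 := CStarAlgebra.norm_le_norm_of_nonneg_of_le (sub_nonneg.2 h1)
          (show algebraMap ℝ B ‖q‖ - q ≤ algebraMap ℝ B ‖q‖ from sub_le_self _ hq0)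
        rwa [norm_algebraMap', norm_norm] at h3
      have h4 := (hle (algebraMap ℝ B ‖q‖ - q)).trans h2
      have h5 : f (algebraMap ℝ B ‖q‖ - q) = (‖q‖ : ℂ) - f q := by
        rw [map_sub]
        congr 1
        rw [Algebra.algebraMap_eq_smul_one, ← Complex.coe_smul, map_smul, f1, smul_eq_mul, mul_one]
      rw [h5] at h4
      have h6 := (Complex.re_le_norm _).trans h4
      rw [Complex.sub_re, Complex.ofReal_re] at h6
      linarith
    show 0 ≤ f q
    rw [Complex.le_def]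
    exact ⟨by simpa using hre, by simpa using him.symm⟩
  · show f p = _
    rw [fp, hp, CStarRing.norm_star_mul_self, sq]

end RepAux

theorem prove_rep : P_rep := by
  intro B _
  rcases subsingleton_or_nontrivial B with hB | hB
  · obtain ⟨L, i1, i2, i3, π, -, -⟩ := H770R2.Kad.prove_dsum.{0, 0} B PEmpty (fun _ => ℂ)
      (fun i => i.elim)
    refine ⟨L, i1, i2, i3, π, fun b => ?_⟩
    rw [Subsingleton.elim b 0, map_zero, norm_zero, norm_zero]
  · have key : ∀ b : B, ∃ (K : Type) (_ : NormedAddCommGroup K) (_ : InnerProductSpace ℂ K)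
        (_ : CompleteSpace K) (σ : B →⋆ₐ[ℂ] (K →L[ℂ] K)) (Ω : K), ‖Ω‖ = 1 ∧
        ‖σ b Ω‖ = ‖b‖ := by
      intro b
      obtain ⟨φ, h1, h2, h3⟩ := RepAux.state b
      obtain ⟨K, i1, i2, i3, σ, Ω, hΩ, hφ, -⟩ := H770R2.Kad.prove_gns.{0} B φ h1 h2
      refine ⟨K, i1, i2, i3, σ, Ω, hΩ, ?_⟩
      have h4 : ((‖σ b Ω‖ ^ 2 : ℝ) : ℂ) = ((‖b‖ ^ 2 : ℝ) : ℂ) := by
        rw [← h3, ← hφ, map_mul, map_star]
        have h5 : (star (σ b) * σ b) Ω = ContinuousLinearMap.adjoint (σ b) (σ b Ω) := rfl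
        rw [h5, ContinuousLinearMap.adjoint_inner_right, inner_self_eq_norm_sq_to_K]
        push_cast
        rfl
      have h6 : ‖σ b Ω‖ ^ 2 = ‖b‖ ^ 2 := by exact_mod_cast h4
      exact (pow_left_inj₀ (norm_nonneg _) (norm_nonneg _) two_ne_zero).1 h6
    choose K i1 i2 i3 σ Ω hΩ hσ using key
    obtain ⟨L, j1, j2, j3, π, V, hV⟩ := H770R2.Kad.prove_dsum.{0, 0} B B K σ
    refine ⟨L, j1, j2, j3, π, fun b => ?_⟩
    apply le_antisymm
    · exact NonUnitalStarAlgHom.norm_apply_le π b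
    · have h1 := (π b).le_opNorm (V b (Ω b))
      rw [hV, (V b).norm_map, (V b).norm_map, hΩ, hσ, mul_one] at h1
      exact h1

end H770R2.Spec
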